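import Pool.Agent.V11198.SixteenD

/-!
# MP_7cf8d2_co: cycles `C` such that the components of `G - V(C)` have at most sixteen vertices

A cycle `C` of a bridgeless cubic graph `G` is a member of a 5-cycle double cover if every component
of `G - V(C)` has at most sixteen vertices and no vertex set of at least nine vertices in one of
these components is left by exactly three edges.  The number of the components is not bounded.
The second condition is empty if the components have at most eight vertices, and it holds if `G` is
cyclically 4-edge-connected.

Proof.  Let `B` be the graph formed by a component of `G - E(C)` after the contraction of `C`.  It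
has at most sixteen vertices of odd degree, so by a theorem of the starting library
(`Pool.Agent.TH362.TF.main16`) it has a nowhere-zero 4-flow or it can be contracted to the Petersen
graph; the nine classes of such a contraction which do not contain `C` would form a set that is left
by three edges.  The flows on the different components are combined by the theorem `four_of_flows`
of the starting library (`Pool.Agent.W614.SC.Four`).
-/

set_option autoImplicit false

open Finset

namespace Pool.Agent.Results.MP_7cf8d2_co.ComponentsSixteen

open Pool.Agent.Helper347.Sab

variable {V E : Type} [Fintype V] [DecidableEq V] [Fintype E] [DecidableEq E]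

/-- `X` is the edge set of an even subgraph: every vertex has even degree in it. -/
def IsEven (G : MGraph V E) (X : Finset E) : Prop := ∀ v, Even (dg G X v)

/-- A 5-cycle double cover: five even subgraphs such that every edge lies in exactly two of them. -/
def IsFiveCDC (G : MGraph V E) (D : Fin 5 → Finset E) : Prop :=
  (∀ i, IsEven G (D i)) ∧ ∀ e, (univ.filter fun i => e ∈ D i).card = 2

/-- The vertex `v` is not a vertex of the circuit `C`. -/
def Off (G : MGraph V E) (C : Finset E) (v : V) : Prop := dg G C v = 0

/-- There is a path from `a` to `b` in the graph `G - V(C)` (all of its vertices are off `C`). -/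
def PathOff (G : MGraph V E) (C : Finset E) (a b : V) : Prop :=
  Relation.ReflTransGen (fun x y => Off G C x ∧ Off G C y ∧ ∃ e, G.ends e = s(x, y)) a b

/-- There is a path from `a` to `b` in the graph `G - E(C)` (it may pass through vertices
of `C`). -/
def PathAvoiding (G : MGraph V E) (C : Finset E) (a b : V) : Prop :=
  Relation.ReflTransGen (fun x y => ∃ e, e ∉ C ∧ G.ends e = s(x, y)) a b

/-- The edges that leave the vertex set `X`. -/
def leaving (G : MGraph V E) (X : Finset V) : Set E := {e | ∃ a ∈ X, ∃ b ∉ X, G.ends e = s(a, b)}

/-- Let `C` be a circuit of a finite loopless multigraph `G` every edge of which lies in a circuit.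

(1) Suppose that for every vertex `v` off `C` there are at most sixteen vertices off `C` which have
odd degree in `G` and are joined to `v` by a path without edges of `C`, and that no set of at least
nine vertices off `C` which are joined to `v` by such paths is left by exactly three edges. Then `G`
has a 5-cycle double cover one of whose five members is `C`.

(2) Let `G` be cubic. Suppose that every component of `G - V(C)` has at most sixteen vertices, and
that no set of at least nine vertices of such a component is left by exactly three edges of `G`.
Then `G` has a 5-cycle double cover one of whose five members is `C`. -/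
theorem result {V E : Type} [Fintype V] [DecidableEq V] [Fintype E] [DecidableEq E]
    (G : MGraph V E) (hb : ∀ e, ∃ D, IsCircuit G D ∧ e ∈ D) (C : Finset E)
    (hC : IsCircuit G C) :
    ((∀ v, Off G C v →
        ({w | Off G C w ∧ Odd (dg G univ w) ∧ PathAvoiding G C v w} : Set V).ncard ≤ 16) →
      (∀ (v : V) (X : Finset V), Off G C v → (∀ w ∈ X, Off G C w ∧ PathAvoiding G C v w) →
        9 ≤ X.card → (leaving G X).ncard ≠ 3) →
      ∃ D : Fin 5 → Finset E, IsFiveCDC G D ∧ D 0 = C) ∧
    (IsCubic G →
      (∀ v, Off G C v → ({w | PathOff G C v w} : Set V).ncard ≤ 16) →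
      (∀ (v : V) (X : Finset V), Off G C v → (∀ w ∈ X, PathOff G C v w) →
        9 ≤ X.card → (leaving G X).ncard ≠ 3) →
      ∃ D : Fin 5 → Finset E, IsFiveCDC G D ∧ D 0 = C) := by
  have hpath : ∀ v w, PathAvoiding G C v w ↔
      Pool.Agent.Helper998.Near.Rch G (univ \ C) v w := by
    have h1 : (fun x y => ∃ e, e ∉ C ∧ G.ends e = s(x, y)) =
        fun x y => ∃ e ∈ univ \ C, G.ends e = s(x, y) := by
      funext x y
      apply propext
      constructor
      · rintro ⟨e, h1, h2⟩; exact ⟨e, mem_sdiff.2 ⟨mem_univ _, h1⟩, h2⟩
      · rintro ⟨e, h1, h2⟩; exact ⟨e, (mem_sdiff.1 h1).2, h2⟩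
    intro v w
    unfold PathAvoiding
    rw [h1]
  constructor
  · intro h16 h3
    obtain ⟨D, h1, h2, h4⟩ := Pool.Agent.V11198.Six.five_general G hb C hC
      (fun v hv => by
        have h := h16 v hv
        simp only [hpath] at h
        exact h)
      (fun v X hv hX h9 => h3 v X hv (fun w hw => ⟨(hX w hw).1, (hpath v w).2 (hX w hw).2⟩) h9)
    exact ⟨D, ⟨h1, h4⟩, h2⟩
  · intro hG h16 h3
    obtain ⟨D, h1, h2, h4⟩ := Pool.Agent.V11198.Six.five_cubic G hG hb C hC h16 h3
    exact ⟨D, ⟨h1, h4⟩, h2⟩

end Pool.Agent.Results.MP_7cf8d2_co.ComponentsSixteen
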