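import Pool.Agent.V11198.CdcUnion

/-!
# MP_7cf8d2_co: five-cycle double covers containing a prescribed cycle

Let `C` be a cycle (a circuit) of a finite loopless multigraph `G` such that `G` is the union of `C`
and two even subgraphs, in other words: the graph `G / C` obtained by contracting `C` has a
nowhere-zero 4-flow.  Then some 5-cycle double cover of `G` has `C` as one of its five members.

This covers for instance all Hamiltonian and all dominating cycles of bridgeless cubic graphs, all
cycles `C` which contain the only zero of a 4-flow, and all cycles `C` for which some cycle `A` meets
`C` and passes through all vertices off `C` (see `Results/MP_ff63d6_co/NearHamiltonian`).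

The proof applies the theorem `four_of_flows` of the starting library (`Pool.Agent.W614.SC.Four`,
a signed sum over the completions of a symmetric matrix over the field with two elements, which
finds multipliers for the flows on the Tutte bridges of `C`) to the flow given by the two even
subgraphs on every Tutte bridge of `C`.
-/

set_option autoImplicit false

open Finset

namespace Pool.Agent.Results.MP_7cf8d2_co.ThreeEvenUnion

open Pool.Agent.Helper347.Sab

variable {V E : Type} [Fintype V] [DecidableEq V] [Fintype E] [DecidableEq E]

/-- `X` is the edge set of an even subgraph: every vertex has even degree in it. -/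
def IsEven (G : MGraph V E) (X : Finset E) : Prop := ∀ v, Even (dg G X v)

/-- A 5-cycle double cover: five even subgraphs such that every edge lies in exactly two of them. -/
def IsFiveCDC (G : MGraph V E) (D : Fin 5 → Finset E) : Prop :=
  (∀ i, IsEven G (D i)) ∧ ∀ e, (univ.filter fun i => e ∈ D i).card = 2

/-- Let `C` be a circuit of a finite loopless multigraph `G` and let `A`, `B` be even subgraphs such
that every edge of `G` lies in `A`, in `B` or in `C`. Then `G` has a 5-cycle double cover one of
whose five members is `C`. -/
theorem result {V E : Type} [Fintype V] [DecidableEq V] [Fintype E] [DecidableEq E]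
    (G : MGraph V E) (C A B : Finset E) (hC : IsCircuit G C) (hA : IsEven G A) (hB : IsEven G B)
    (hcov : ∀ e, e ∈ A ∨ e ∈ B ∨ e ∈ C) :
    ∃ D : Fin 5 → Finset E, IsFiveCDC G D ∧ D 0 = C := by
  obtain ⟨D, h1, h2, h3⟩ := Pool.Agent.V11198.Cdc.five_of_union G C A B hC hA hB (fun e he => by
    rcases hcov e with h | h | h
    · exact Or.inl h
    · exact Or.inr h
    · exact absurd h he)
  exact ⟨D, ⟨h1, h3⟩, h2⟩

end Pool.Agent.Results.MP_7cf8d2_co.ThreeEvenUnion
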